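import Pool.Agent.Helper31.LQ.Goals

/-!
# Project LQ: the goal MV
-/

set_option autoImplicit false

open MeasureTheory Set
open Pool.Agent.Helper31.LQ

namespace Pool.Agent.Helper84.LQ

theorem gMV : Pool.Agent.Helper31.LQ.MV := by
  intro n d K hK
  have : CompactSpace K := isCompact_iff_compactSpace.1 hK
  set C : Set (((Fin n → Fin d → ℝ) × (Fin d → ℝ)) × K) :=
    {p | lin p.1.1 (p.2 : Fin n → ℝ) = p.1.2} with hC
  have hCc : IsClosed C := by
    rw [hC]
    refine isClosed_eq ?_ (by fun_prop)
    unfold lin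
    refine continuous_pi fun c => continuous_finset_sum _ fun l _ => ?_
    refine Continuous.mul ?_ ?_
    · exact (continuous_apply l).comp (continuous_subtype_val.comp continuous_snd)
    · exact (continuous_apply c).comp ((continuous_apply l).comp
        (continuous_fst.comp continuous_fst))
  have hS : IsClosed (Prod.fst '' C) := isClosedMap_fst_of_compactSpace _ hCc
  have h := measurable_measure_prodMk_left (ν := (volume : Measure (Fin d → ℝ))) hS.measurableSet
  have e : (fun Y : Fin n → Fin d → ℝ => volume (lin Y '' K)) =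
      fun Y : Fin n → Fin d → ℝ => volume (Prod.mk Y ⁻¹' (Prod.fst '' C)) := by
    funext Y
    congr 1
    ext z
    constructor
    · rintro ⟨x, hx, rfl⟩
      exact ⟨((Y, lin Y x), ⟨x, hx⟩), rfl, rfl⟩
    · rintro ⟨⟨⟨Y', z'⟩, x⟩, hx, hh⟩
      have hh' : (Y', z') = (Y, z) := hh
      rw [Prod.mk.injEq] at hh'
      obtain ⟨rfl, rfl⟩ := hh'
      exact ⟨x, x.2, hx⟩
  rw [e]
  exact h

end Pool.Agent.Helper84.LQ
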